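import Pool.Agent.Q227.CG.Pol
import Pool.Agent.Q227.CG.Mem2
import Pool.Agent.H673R2.HardOn

/-!
# Recognising clique graphs in the class `3split_3` is NP-complete
-/

set_option autoImplicit false

namespace Pool.Agent.Results.MP_aad05f_lc.ThreeSplitThree

open Pool.Agent.NPC Pool.Agent.H673R2 Pool.Agent.Q227.CG

/-- Deciding whether a graph of the class `3split_3`, given together with its partition, is a
clique graph is `NP`-complete: the problem is in `NP`, and every language in `NP` has a
polynomial-time many-one reduction to it, all of whose instances are graphs of the class with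
their partitions. -/
theorem result : InNPP CliqueGraph3 ∧ NPHardOn ThreeSplit3 CliqueGraph3 := by
  refine ⟨inNPP_cg, ?_⟩
  exact npHardOn_of hardPr_SAT3b (f := red) red_poly (fun φ hφ => red_valid hφ.1 hφ.2.1)
    fun φ hφ => (red_iff hφ.1 hφ.2.1 hφ.2.2).trans
      ⟨fun h => ⟨red_valid hφ.1 hφ.2.1, h⟩, fun h => h.2⟩

end Pool.Agent.Results.MP_aad05f_lc.ThreeSplitThree
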